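import Mathlib

open MeasureTheory Filter Set
open scoped BigOperators

namespace Pool.Agent.Results.MP_4b7d36_an.Curse

/-- For points `x 0, …, x (N-1)` of `ℝ^d`, the number of indices `k` with
`x k ∈ [0,t) = [0,t_1) × ⋯ × [0,t_d)`. -/
noncomputable def count {d N : ℕ} (x : Fin N → Fin d → ℝ) (t : Fin d → ℝ) : ℕ :=
  Nat.card {k : Fin N // ∀ i, x k i ∈ Set.Ico (0 : ℝ) (t i)}

/-- The local discrepancy function `Δ(t) = #{k : x_k ∈ [0,t)} / N - t_1 ⋯ t_d`.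
(For `N = 0`, the empty point set, it is `- t_1 ⋯ t_d`.) -/
noncomputable def localDisc {d N : ℕ} (x : Fin N → Fin d → ℝ) (t : Fin d → ℝ) : ℝ :=
  (count x t : ℝ) / (N : ℝ) - ∏ i, t i

/-- The `L_p`-discrepancy `(∫_{[0,1]^d} |Δ(t)|^p dt)^{1/p}` of an `N`-point set. -/
noncomputable def lpDisc (p : ℝ) {d N : ℕ} (x : Fin N → Fin d → ℝ) : ℝ :=
  (∫ t in Set.Icc (0 : Fin d → ℝ) 1, |localDisc x t| ^ p) ^ (1 / p)

/-- `disc_p(N,d)`: the infimum of the `L_p`-discrepancy over all `N`-tuples of points of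
`[0,1)^d`. For `N = 0` it is the initial discrepancy (that of the empty set). -/
noncomputable def disc (p : ℝ) (N d : ℕ) : ℝ :=
  ⨅ x : {x : Fin N → Fin d → ℝ // ∀ k i, x k i ∈ Set.Ico (0 : ℝ) 1}, lpDisc p x.1

/-- The inverse of the minimal `L_p`-discrepancy:
`N_p(ε,d) = min {N : disc_p(N,d) ≤ ε · disc_p(0,d)}`. -/
noncomputable def inverseDisc (p ε : ℝ) (d : ℕ) : ℕ :=
  sInf {N : ℕ | disc p N d ≤ ε * disc p 0 d}

/-- The `L_p`-discrepancy suffers from the curse of dimensionality: there are `C > 1` and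
`ε₀ ∈ (0,1)` such that, for infinitely many `d`, one has `N_p(ε,d) ≥ C^d` for all
`ε ∈ (0,ε₀)`. -/
def SuffersCurse (p : ℝ) : Prop :=
  ∃ C : ℝ, 1 < C ∧ ∃ ε₀ : ℝ, 0 < ε₀ ∧ ε₀ < 1 ∧
    ∃ᶠ d : ℕ in atTop, ∀ ε : ℝ, 0 < ε → ε < ε₀ → C ^ d ≤ (inverseDisc p ε d : ℝ)

/-! ### Elementary facts on the counting function -/

lemma count_le {d N : ℕ} (x : Fin N → Fin d → ℝ) (t : Fin d → ℝ) : count x t ≤ N := by
  unfold count
  calc Nat.card {k : Fin N // ∀ i, x k i ∈ Set.Ico (0 : ℝ) (t i)}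
      ≤ Nat.card (Fin N) := Nat.card_le_card_of_injective _ Subtype.val_injective
    _ = N := by simp

lemma count_eq_sum {d N : ℕ} (x : Fin N → Fin d → ℝ) (t : Fin d → ℝ) :
    (count x t : ℝ) =
      ∑ k : Fin N, Set.indicator {t : Fin d → ℝ | ∀ i, x k i ∈ Set.Ico (0 : ℝ) (t i)}
        (fun _ => (1 : ℝ)) t := by
  classical
  unfold count
  rw [Nat.card_eq_fintype_card, Fintype.card_subtype, Finset.card_filter]
  push_cast
  refine Finset.sum_congr rfl fun k _ => ?_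
  by_cases h : ∀ i, x k i ∈ Set.Ico (0 : ℝ) (t i)
  · rw [if_pos h, Set.indicator_of_mem
      (show t ∈ {t : Fin d → ℝ | ∀ i, x k i ∈ Set.Ico (0 : ℝ) (t i)} from h)]
  · rw [if_neg h, Set.indicator_of_notMem
      (show t ∉ {t : Fin d → ℝ | ∀ i, x k i ∈ Set.Ico (0 : ℝ) (t i)} from h)]

lemma measurable_count {d N : ℕ} (x : Fin N → Fin d → ℝ) :
    Measurable (fun t => (count x t : ℝ)) := by
  have : (fun t => (count x t : ℝ)) = fun t =>
      ∑ k : Fin N, Set.indicator {t : Fin d → ℝ | ∀ i, x k i ∈ Set.Ico (0 : ℝ) (t i)}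
        (fun _ => (1 : ℝ)) t := funext fun t => count_eq_sum x t
  rw [this]
  refine Finset.measurable_sum _ fun k _ => ?_
  refine measurable_const.indicator ?_
  have h2 : {t : Fin d → ℝ | ∀ i, x k i ∈ Set.Ico (0 : ℝ) (t i)} =
      ⋂ i, {t : Fin d → ℝ | 0 ≤ x k i ∧ x k i < t i} := by
    ext t; simp
  rw [h2]
  refine MeasurableSet.iInter fun i => ?_
  exact MeasurableSet.inter (MeasurableSet.const _)
    (measurableSet_lt measurable_const (measurable_pi_apply i))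

lemma measurable_localDisc {d N : ℕ} (x : Fin N → Fin d → ℝ) :
    Measurable (localDisc x) := by
  unfold localDisc
  refine Measurable.sub ((measurable_count x).div_const _) ?_
  exact Finset.measurable_prod _ fun i _ => measurable_pi_apply i

lemma prod_mem {d : ℕ} {t : Fin d → ℝ} (ht : t ∈ Set.Icc (0 : Fin d → ℝ) 1) :
    0 ≤ ∏ i, t i ∧ ∏ i, t i ≤ 1 := by
  refine ⟨Finset.prod_nonneg fun i _ => ht.1 i, ?_⟩
  exact Finset.prod_le_one (fun i _ => ht.1 i) (fun i _ => ht.2 i)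

lemma abs_localDisc_le {d N : ℕ} (x : Fin N → Fin d → ℝ) {t : Fin d → ℝ}
    (ht : t ∈ Set.Icc (0 : Fin d → ℝ) 1) : |localDisc x t| ≤ 1 := by
  obtain ⟨h0, h1⟩ := prod_mem ht
  have hA : (count x t : ℝ) / (N : ℝ) ≤ 1 := by
    rcases Nat.eq_zero_or_pos N with h | h
    · subst h; simp
    · rw [div_le_one (by exact_mod_cast h)]
      exact_mod_cast count_le x t
  have hA0 : 0 ≤ (count x t : ℝ) / (N : ℝ) := by positivity
  unfold localDisc
  rw [abs_le]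
  constructor <;> linarith

/-- The key pointwise inequality: since the counting function is integer valued,
`|Δ(t)| ≥ V - N V²` where `V = t_1 ⋯ t_d`. -/
lemma key {d N : ℕ} (x : Fin N → Fin d → ℝ) {t : Fin d → ℝ}
    (ht : t ∈ Set.Icc (0 : Fin d → ℝ) 1) :
    ∏ i, t i - (N : ℝ) * (∏ i, t i) ^ 2 ≤ |localDisc x t| := by
  obtain ⟨h0, h1⟩ := prod_mem ht
  set V : ℝ := ∏ i, t i with hV
  unfold localDisc
  rw [← hV]
  rcases Nat.eq_zero_or_pos (count x t) with h | h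
  · rw [h]
    have : |((0 : ℕ) : ℝ) / (N : ℝ) - V| = V := by
      simp [abs_of_nonneg h0]
    rw [this]
    have : 0 ≤ (N : ℝ) * V ^ 2 := by positivity
    linarith
  · have hN : 0 < N := lt_of_lt_of_le h (count_le x t)
    have hN' : (0 : ℝ) < (N : ℝ) := by exact_mod_cast hN
    have hA : (1 : ℝ) / (N : ℝ) ≤ (count x t : ℝ) / (N : ℝ) := by
      apply div_le_div_of_nonneg_right _ hN'.le
      exact_mod_cast h
    have h3 : (count x t : ℝ) / (N : ℝ) - V ≤ |(count x t : ℝ) / (N : ℝ) - V| := le_abs_self _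
    have h4 : 0 ≤ 1 / (N : ℝ) - 2 * V + (N : ℝ) * V ^ 2 := by
      have : 1 / (N : ℝ) - 2 * V + (N : ℝ) * V ^ 2 = (1 - (N : ℝ) * V) ^ 2 / (N : ℝ) := by
        field_simp
        ring
      rw [this]
      positivity
    linarith

/-! ### Integrals over the cube -/

lemma integral_prod_pow (d n : ℕ) :
    ∫ t in Set.Icc (0 : Fin d → ℝ) 1, (∏ i, t i) ^ n = (1 / ((n : ℝ) + 1)) ^ d := by
  have h1 : (Set.Icc (0 : Fin d → ℝ) 1) = Set.pi Set.univ (fun _ => Set.Icc (0 : ℝ) 1) := by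
    rw [Set.pi_univ_Icc]; rfl
  rw [h1, volume_pi, Measure.restrict_pi_pi]
  have h2 : (fun t : Fin d → ℝ => (∏ i, t i) ^ n) = fun t => ∏ i, (t i) ^ n := by
    funext t; simp [Finset.prod_pow]
  have h3 : ∫ s in Set.Icc (0 : ℝ) 1, s ^ n = 1 / ((n : ℝ) + 1) := by
    rw [integral_Icc_eq_integral_Ioc, ← intervalIntegral.integral_of_le zero_le_one, integral_pow]
    simp
  have h4 := integral_fintype_prod_eq_prod (ι := Fin d) (E := fun _ => ℝ) (𝕜 := ℝ)
    (μ := fun _ => (volume : Measure ℝ).restrict (Set.Icc (0 : ℝ) 1)) (fun _ s => s ^ n)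
  rw [h2]
  refine h4.trans ?_
  simp [h3]

lemma integrableOn_of_continuous {d : ℕ} {f : (Fin d → ℝ) → ℝ} (hf : Continuous f) :
    IntegrableOn f (Set.Icc (0 : Fin d → ℝ) 1) :=
  hf.continuousOn.integrableOn_compact isCompact_Icc

lemma integrableOn_localDisc {d N : ℕ} (x : Fin N → Fin d → ℝ) :
    IntegrableOn (fun t => |localDisc x t|) (Set.Icc (0 : Fin d → ℝ) 1) := by
  have hfin : volume (Set.Icc (0 : Fin d → ℝ) 1) < ⊤ := isCompact_Icc.measure_lt_top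
  refine Measure.integrableOn_of_bounded (M := 1) hfin.ne
    (measurable_localDisc x).abs.aestronglyMeasurable ?_
  refine (ae_restrict_mem measurableSet_Icc).mono fun t ht => ?_
  simpa using abs_localDisc_le x ht

/-- Lower bound for the `L_1`-discrepancy of any `N` points. -/
lemma integral_lower {d N : ℕ} (x : Fin N → Fin d → ℝ) :
    (1 / 2 : ℝ) ^ d - (N : ℝ) * (1 / 3 : ℝ) ^ d
      ≤ ∫ t in Set.Icc (0 : Fin d → ℝ) 1, |localDisc x t| := by
  have e1 : ∫ t in Set.Icc (0 : Fin d → ℝ) 1, (∏ i, t i) = (1 / 2 : ℝ) ^ d := by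
    have := integral_prod_pow d 1
    simp only [pow_one] at this
    rw [this]; norm_num
  have e2 : ∫ t in Set.Icc (0 : Fin d → ℝ) 1, (∏ i, t i) ^ 2 = (1 / 3 : ℝ) ^ d := by
    rw [integral_prod_pow d 2]; norm_num
  have c1 : Continuous (fun t : Fin d → ℝ => ∏ i, t i) :=
    continuous_finsetProd _ fun i _ => continuous_apply i
  have c2 : Continuous (fun t : Fin d → ℝ => (N : ℝ) * (∏ i, t i) ^ 2) :=
    continuous_const.mul (c1.pow 2)
  have e3 : ∫ t in Set.Icc (0 : Fin d → ℝ) 1, ((∏ i, t i) - (N : ℝ) * (∏ i, t i) ^ 2)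
      = (1 / 2 : ℝ) ^ d - (N : ℝ) * (1 / 3 : ℝ) ^ d := by
    rw [integral_sub (integrableOn_of_continuous c1) (integrableOn_of_continuous c2),
      integral_const_mul, e1, e2]
  rw [← e3]
  refine setIntegral_mono_on (integrableOn_of_continuous (c1.sub c2)) (integrableOn_localDisc x)
    measurableSet_Icc ?_
  intro t ht
  exact key x ht

lemma lpDisc_one {d N : ℕ} (x : Fin N → Fin d → ℝ) :
    lpDisc 1 x = ∫ t in Set.Icc (0 : Fin d → ℝ) 1, |localDisc x t| := by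
  unfold lpDisc; simp

lemma disc_zero (d : ℕ) : disc 1 0 d = (1 / 2 : ℝ) ^ d := by
  unfold disc
  have hx : ∀ x : {x : Fin 0 → Fin d → ℝ // ∀ k i, x k i ∈ Set.Ico (0 : ℝ) 1},
      lpDisc 1 x.1 = (1 / 2 : ℝ) ^ d := by
    intro x
    rw [lpDisc_one]
    have h := integral_prod_pow d 1
    simp only [pow_one] at h
    have e1 : ∫ t in Set.Icc (0 : Fin d → ℝ) 1, |localDisc x.1 t| =
        ∫ t in Set.Icc (0 : Fin d → ℝ) 1, (∏ i, t i) := by
      refine setIntegral_congr_fun measurableSet_Icc fun t ht => ?_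
      simp [localDisc, abs_of_nonneg (prod_mem ht).1]
    rw [e1, h]; norm_num
  have : Nonempty {x : Fin 0 → Fin d → ℝ // ∀ k i, x k i ∈ Set.Ico (0 : ℝ) 1} :=
    ⟨⟨fun k => k.elim0, fun k => k.elim0⟩⟩
  exact (iInf_congr hx).trans ciInf_const

lemma disc_lower (N d : ℕ) : (1 / 2 : ℝ) ^ d - (N : ℝ) * (1 / 3 : ℝ) ^ d ≤ disc 1 N d := by
  unfold disc
  have : Nonempty {x : Fin N → Fin d → ℝ // ∀ k i, x k i ∈ Set.Ico (0 : ℝ) 1} :=
    ⟨⟨fun _ _ => 0, fun _ _ => by simp⟩⟩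
  refine le_ciInf fun x => ?_
  rw [lpDisc_one]
  exact integral_lower x.1

/-! ### The set defining the inverse is nonempty -/

lemma abs_prod_sub_prod_le {ι : Type*} (s : Finset ι) (a b : ι → ℝ)
    (ha : ∀ i ∈ s, 0 ≤ a i ∧ a i ≤ 1) (hb : ∀ i ∈ s, 0 ≤ b i ∧ b i ≤ 1) :
    |∏ i ∈ s, a i - ∏ i ∈ s, b i| ≤ ∑ i ∈ s, |a i - b i| := by
  classical
  induction s using Finset.induction_on with
  | empty => simp
  | insert j s hj ih =>
    rw [Finset.prod_insert hj, Finset.prod_insert hj, Finset.sum_insert hj]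
    have ih' := ih (fun i hi => ha i (Finset.mem_insert_of_mem hi))
      (fun i hi => hb i (Finset.mem_insert_of_mem hi))
    have haj := ha j (Finset.mem_insert_self _ _)
    have hP : 0 ≤ ∏ i ∈ s, b i ∧ ∏ i ∈ s, b i ≤ 1 :=
      ⟨Finset.prod_nonneg fun i hi => (hb i (Finset.mem_insert_of_mem hi)).1,
        Finset.prod_le_one (fun i hi => (hb i (Finset.mem_insert_of_mem hi)).1)
          (fun i hi => (hb i (Finset.mem_insert_of_mem hi)).2)⟩
    have e : a j * ∏ i ∈ s, a i - b j * ∏ i ∈ s, b i =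
        a j * (∏ i ∈ s, a i - ∏ i ∈ s, b i) + (a j - b j) * ∏ i ∈ s, b i := by ring
    rw [e]
    calc |a j * (∏ i ∈ s, a i - ∏ i ∈ s, b i) + (a j - b j) * ∏ i ∈ s, b i|
        ≤ |a j * (∏ i ∈ s, a i - ∏ i ∈ s, b i)| + |(a j - b j) * ∏ i ∈ s, b i| :=
          abs_add_le _ _
      _ = |a j| * |∏ i ∈ s, a i - ∏ i ∈ s, b i| + |a j - b j| * |∏ i ∈ s, b i| := by
          rw [abs_mul, abs_mul]
      _ ≤ 1 * |∏ i ∈ s, a i - ∏ i ∈ s, b i| + |a j - b j| * 1 := by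
          gcongr
          · rw [abs_of_nonneg haj.1]; exact haj.2
          · rw [abs_of_nonneg hP.1]; exact hP.2
      _ ≤ |a j - b j| + ∑ i ∈ s, |a i - b i| := by linarith

/-- the number of `j < m` with `j / m < s` -/
lemma card_lt (m : ℕ) (hm : 0 < m) (s : ℝ) (hs : 0 ≤ s) (hs1 : s ≤ 1) :
    |(Nat.card {j : Fin m // ((j : ℕ) : ℝ) / m ∈ Set.Ico (0 : ℝ) s} : ℝ) / m - s| ≤ 1 / m := by
  have hm' : (0 : ℝ) < m := by exact_mod_cast hm
  have hc : Nat.card {j : Fin m // ((j : ℕ) : ℝ) / m ∈ Set.Ico (0 : ℝ) s} = ⌈s * m⌉₊ := by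
    have hle : ⌈s * m⌉₊ ≤ m := by
      rw [Nat.ceil_le]; nlinarith
    have hP : ∀ j : Fin m, ((j : ℕ) : ℝ) / m ∈ Set.Ico (0 : ℝ) s ↔ (j : ℕ) < ⌈s * m⌉₊ := by
      intro j
      rw [Set.mem_Ico, div_lt_iff₀ hm', Nat.lt_ceil]
      constructor
      · intro h; exact h.2
      · intro h; exact ⟨by positivity, h⟩
    have e : Nat.card {j : Fin m // ((j : ℕ) : ℝ) / m ∈ Set.Ico (0 : ℝ) s} =
        Nat.card {j : Fin m // (j : ℕ) < ⌈s * m⌉₊} := by
      congr 1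
      simp only [hP]
    rw [e]
    have e2 : Nat.card {j : Fin m // (j : ℕ) < ⌈s * m⌉₊} = Nat.card (Fin ⌈s * m⌉₊) := by
      refine Nat.card_congr ⟨fun j => ⟨(j.1 : ℕ), j.2⟩,
        fun j => ⟨⟨(j : ℕ), lt_of_lt_of_le j.2 hle⟩, j.2⟩, fun j => rfl, fun j => rfl⟩
    rw [e2]; simp
  rw [hc]
  have h1 : s * m ≤ (⌈s * m⌉₊ : ℝ) := Nat.le_ceil _
  have h2 : (⌈s * m⌉₊ : ℝ) < s * m + 1 := Nat.ceil_lt_add_one (by positivity)
  rw [abs_le]
  have e3 : (⌈s * m⌉₊ : ℝ) / m - s = ((⌈s * m⌉₊ : ℝ) - s * m) / m := by field_simp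
  rw [e3]
  constructor
  · have : 0 ≤ ((⌈s * m⌉₊ : ℝ) - s * m) / m := div_nonneg (by linarith) hm'.le
    have : 0 ≤ 1 / (m : ℝ) := by positivity
    linarith
  · apply div_le_div_of_nonneg_right _ hm'.le
    linarith

/-- The regular grid with `m^d` points. -/
noncomputable def grid (d m : ℕ) : Fin (m ^ d) → Fin d → ℝ :=
  fun k i => (((finFunctionFinEquiv.symm k) i : ℕ) : ℝ) / m

lemma grid_mem (d m : ℕ) (hm : 0 < m) (k : Fin (m ^ d)) (i : Fin d) :
    grid d m k i ∈ Set.Ico (0 : ℝ) 1 := by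
  have hm' : (0 : ℝ) < m := by exact_mod_cast hm
  unfold grid
  constructor
  · positivity
  · rw [div_lt_one hm']
    exact_mod_cast (finFunctionFinEquiv.symm k i).2

lemma count_grid (d m : ℕ) (t : Fin d → ℝ) :
    count (grid d m) t =
      ∏ i, Nat.card {j : Fin m // ((j : ℕ) : ℝ) / m ∈ Set.Ico (0 : ℝ) (t i)} := by
  unfold count
  have e : Nat.card {k : Fin (m ^ d) // ∀ i, grid d m k i ∈ Set.Ico (0 : ℝ) (t i)} =
      Nat.card ((i : Fin d) → {j : Fin m // ((j : ℕ) : ℝ) / m ∈ Set.Ico (0 : ℝ) (t i)}) := by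
    refine Nat.card_congr ?_
    refine ⟨fun k i => ⟨finFunctionFinEquiv.symm k.1 i, k.2 i⟩,
      fun f => ⟨finFunctionFinEquiv fun i => (f i).1, fun i => ?_⟩, fun k => ?_, fun f => ?_⟩
    · simp only [grid, Equiv.symm_apply_apply]
      exact (f i).2
    · apply Subtype.ext
      simp
    · funext i
      apply Subtype.ext
      simp
  rw [e, Nat.card_pi]

lemma localDisc_grid (d m : ℕ) (hm : 0 < m) {t : Fin d → ℝ}
    (ht : t ∈ Set.Icc (0 : Fin d → ℝ) 1) : |localDisc (grid d m) t| ≤ (d : ℝ) / m := by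
  have hm' : (0 : ℝ) < m := by exact_mod_cast hm
  unfold localDisc
  rw [count_grid]
  push_cast
  have e : (∏ i : Fin d, (Nat.card {j : Fin m // ((j : ℕ) : ℝ) / m ∈ Set.Ico (0 : ℝ) (t i)} : ℝ))
      / (m : ℝ) ^ d = ∏ i : Fin d,
        ((Nat.card {j : Fin m // ((j : ℕ) : ℝ) / m ∈ Set.Ico (0 : ℝ) (t i)} : ℝ) / m) := by
    rw [Finset.prod_div_distrib]; simp
  rw [e]
  have hcard : ∀ i : Fin d,
      (Nat.card {j : Fin m // ((j : ℕ) : ℝ) / m ∈ Set.Ico (0 : ℝ) (t i)} : ℝ) / m ≤ 1 := by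
    intro i
    rw [div_le_one hm']
    have : Nat.card {j : Fin m // ((j : ℕ) : ℝ) / m ∈ Set.Ico (0 : ℝ) (t i)} ≤ Nat.card (Fin m) :=
      Nat.card_le_card_of_injective _ Subtype.val_injective
    simpa using this
  refine (abs_prod_sub_prod_le Finset.univ _ t
    (fun i _ => ⟨by positivity, hcard i⟩) (fun i _ => ⟨ht.1 i, ht.2 i⟩)).trans ?_
  calc ∑ i : Fin d,
        |(Nat.card {j : Fin m // ((j : ℕ) : ℝ) / m ∈ Set.Ico (0 : ℝ) (t i)} : ℝ) / m - t i|
      ≤ ∑ _i : Fin d, 1 / (m : ℝ) := Finset.sum_le_sum fun i _ => card_lt m hm (t i) (ht.1 i) (ht.2 i)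
    _ = (d : ℝ) / m := by simp [div_eq_mul_inv]

lemma disc_le_grid (d m : ℕ) (hm : 0 < m) : disc 1 (m ^ d) d ≤ (d : ℝ) / m := by
  have hbdd : BddBelow (Set.range fun x : {x : Fin (m ^ d) → Fin d → ℝ //
      ∀ k i, x k i ∈ Set.Ico (0 : ℝ) 1} => lpDisc 1 x.1) := by
    refine ⟨0, ?_⟩
    rintro _ ⟨x, rfl⟩
    simp only [lpDisc_one]
    exact integral_nonneg fun t => abs_nonneg _
  refine (ciInf_le hbdd ⟨grid d m, grid_mem d m hm⟩).trans ?_
  rw [lpDisc_one]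
  have h1 : ∫ t in Set.Icc (0 : Fin d → ℝ) 1, |localDisc (grid d m) t| ≤
      ∫ _t in Set.Icc (0 : Fin d → ℝ) 1, (d : ℝ) / m := by
    refine setIntegral_mono_on (integrableOn_localDisc _)
      (integrableOn_of_continuous continuous_const) measurableSet_Icc ?_
    intro t ht
    exact localDisc_grid d m hm ht
  refine h1.trans ?_
  have hv : (volume (Set.Icc (0 : Fin d → ℝ) 1)).toReal = 1 := by
    rw [Real.volume_Icc_pi_toReal (by intro i; simp)]
    simp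
  simp only [integral_const, smul_eq_mul]
  rw [Measure.real, Measure.restrict_apply_univ, hv, one_mul]

lemma inverse_nonempty (d : ℕ) (ε : ℝ) (hε : 0 < ε) :
    {N : ℕ | disc 1 N d ≤ ε * disc 1 0 d}.Nonempty := by
  rw [disc_zero]
  have hpos : 0 < ε * (1 / 2 : ℝ) ^ d := by positivity
  obtain ⟨m, hm⟩ := exists_nat_gt ((d : ℝ) / (ε * (1 / 2 : ℝ) ^ d))
  have hm0 : 0 < m := by
    have : (0 : ℝ) < m := lt_of_le_of_lt (by positivity) hm
    exact_mod_cast this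
  have hm' : (0 : ℝ) < m := by exact_mod_cast hm0
  refine ⟨m ^ d, ?_⟩
  refine (disc_le_grid d m hm0).trans ?_
  rw [div_lt_iff₀ hpos] at hm
  rw [div_le_iff₀ hm']
  nlinarith

/-- Explicit lower bound, valid for every dimension `d` and every `ε > 0`:
`N_1(ε,d) ≥ (1 - ε) (3/2)^d`. -/
theorem inverse_lower (d : ℕ) (ε : ℝ) (hε : 0 < ε) :
    (1 - ε) * (3 / 2 : ℝ) ^ d ≤ (inverseDisc 1 ε d : ℝ) := by
  have hmem : disc 1 (inverseDisc 1 ε d) d ≤ ε * disc 1 0 d :=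
    Nat.sInf_mem (inverse_nonempty d ε hε)
  rw [disc_zero] at hmem
  have hlow := disc_lower (inverseDisc 1 ε d) d
  set N : ℝ := (inverseDisc 1 ε d : ℝ) with hN
  have h1 : (1 - ε) * (1 / 2 : ℝ) ^ d ≤ N * (1 / 3 : ℝ) ^ d := by nlinarith
  have h3 : (0 : ℝ) < 3 ^ d := by positivity
  have h4 := mul_le_mul_of_nonneg_right h1 h3.le
  have e1 : (1 - ε) * (1 / 2 : ℝ) ^ d * 3 ^ d = (1 - ε) * (3 / 2 : ℝ) ^ d := by
    rw [mul_assoc, ← mul_pow]; norm_num
  have e2 : N * (1 / 3 : ℝ) ^ d * 3 ^ d = N := by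
    rw [mul_assoc, ← mul_pow]; norm_num
  rw [e1, e2] at h4
  exact h4

/-- **The `L_1`-discrepancy suffers from the curse of dimensionality.** -/
theorem result : SuffersCurse 1 := by
  refine ⟨5 / 4, by norm_num, 1 / 2, by norm_num, by norm_num, ?_⟩
  apply Eventually.frequently
  filter_upwards [eventually_ge_atTop 4] with d hd
  intro ε hε hε2
  refine le_trans ?_ (inverse_lower d ε hε)
  have h1 : (2 : ℝ) ≤ (6 / 5 : ℝ) ^ d := by
    calc (2 : ℝ) ≤ (6 / 5 : ℝ) ^ 4 := by norm_num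
      _ ≤ (6 / 5 : ℝ) ^ d := pow_le_pow_right₀ (by norm_num) hd
  have h2 : (3 / 2 : ℝ) ^ d = (6 / 5 : ℝ) ^ d * (5 / 4 : ℝ) ^ d := by
    rw [← mul_pow]; norm_num
  have h3 : (0 : ℝ) < (5 / 4 : ℝ) ^ d := by positivity
  rw [h2]
  nlinarith [mul_pos (show (0:ℝ) < (6/5:ℝ)^d by positivity) h3]

end Pool.Agent.Results.MP_4b7d36_an.Curse
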